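import Pool.Agent.Helper98.SB.Main
import Pool.Agent.Helper18.CL.Defs

/-!
# CB for a prime `ℓ`, algebra side: R5, symmetry, multiplicativity in the form of the frames
-/

set_option autoImplicit false

namespace Pool.Agent.Helper98.CL

open Polynomial Pool.Agent.Helper69.SB Pool.Agent.Helper18.CL

/-- **R5.** -/
theorem r5 (F : Type) [Field F] [CharZero F] (l : ℕ) [NeZero l] (hl : l.Prime) (ζ : F)
    (hζ : IsPrimitiveRoot ζ l) (a b : F) (ha : a ≠ 0) (hb : b ≠ 0) (z : Fin l → Fin l → F)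
    (hz : z ≠ 0) (hz0 : z 0 0 = 0) (t : F)
    (ht : ∀ (E : Type) [Field E] [Algebra F E] (β : E), β ^ l = algebraMap F E b →
      (m1 (algebraMap F E ζ) (algebraMap F E a) β
        (fun r s => algebraMap F E (z r s))).charpoly.IsRoot (algebraMap F E t)) :
    IsNm l a b :=
  (Pool.Agent.Helper98.SB.isNm_of_eigenvalue hζ hl ha hb z hz0 hz t
    (fun E _ _ β hβ => ht E β hβ)).1

/-- **SYM.** -/
theorem isNm_symm (F : Type) [Field F] [CharZero F] (l : ℕ) (hl : l.Prime) (ζ : F)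
    (hζ : IsPrimitiveRoot ζ l) (a b : F) (ha : a ≠ 0) (hb : b ≠ 0) (h : IsNm l a b) :
    IsNm l b a :=
  Pool.Agent.Helper98.SB.IsNm.symm hζ hl hb ha h

theorem isNm_mul {F : Type} [Field F] {l : ℕ} (_hl : l ≠ 0) {a b b' : F} (h : IsNm l a b)
    (h' : IsNm l a b') : IsNm l a (b * b') :=
  Pool.Agent.Helper98.SB.IsNm.mul h h'

theorem isNm_inv {F : Type} [Field F] {l : ℕ} (hl : l ≠ 0) {a b : F} (hb : b ≠ 0)
    (h : IsNm l a b) : IsNm l a b⁻¹ :=
  Pool.Agent.Helper98.SB.IsNm.inv (Nat.pos_of_ne_zero hl) hb h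

theorem isNm_pow {F : Type} [Field F] {l : ℕ} (hl : l ≠ 0) (a b : F) : IsNm l a (b ^ l) :=
  Pool.Agent.Helper98.SB.isNm_pow_self (Nat.pos_of_ne_zero hl) a b

/-- norm of the root -/
theorem isNm_self {F : Type} [Field F] {l : ℕ} (hl : l ≠ 0) (a : F) :
    IsNm l a ((-1) ^ (l + 1) * a) :=
  Pool.Agent.Helper98.SB.isNm_root (Nat.pos_of_ne_zero hl) a

end Pool.Agent.Helper98.CL
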